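import Pool.Agent.H422R2.LP.Defs

/-! Task B_abs: the archimedean bound of the Hankel determinant by monic polynomials. -/

open Polynomial Filter Topology MeasureTheory

namespace Pool.Agent.LP

noncomputable section

/-! ### algebra -/

lemma BA_gram (N : ℂ[X] →ₗ[ℂ] ℂ) (m : ℕ) (P : ℕ → ℂ[X])
    (h : ∀ i < m, (P i).natDegree < m) :
    (Matrix.of fun a b : Fin m => N (P a * P b)) =
      (Matrix.of fun (a : Fin m) (k : Fin m) => (P a).coeff (k : ℕ)) *
        (Matrix.of fun i j : Fin m => N (X ^ (i.1 + j.1))) *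
        (Matrix.of fun (a : Fin m) (k : Fin m) => (P a).coeff (k : ℕ)).transpose := by
  have expand : ∀ i < m, P i = ∑ k : Fin m, ((P i).coeff k) • (X ^ (k : ℕ) : ℂ[X]) := by
    intro i hi
    conv_lhs => rw [(P i).as_sum_range' m (h i hi)]
    rw [Fin.sum_univ_eq_sum_range (fun k => ((P i).coeff k) • (X ^ k : ℂ[X])) m]
    apply Finset.sum_congr rfl
    intro k _
    rw [← Polynomial.C_mul_X_pow_eq_monomial, Polynomial.smul_eq_C_mul]
  ext a b
  rw [Matrix.of_apply, Matrix.mul_apply]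
  conv_lhs => rw [expand a a.2, expand b b.2, Finset.mul_sum, map_sum]
  apply Finset.sum_congr rfl
  intro l _
  rw [Matrix.mul_apply, Matrix.transpose_apply, Matrix.of_apply, Finset.sum_mul, Finset.sum_mul,
    map_sum]
  apply Finset.sum_congr rfl
  intro k _
  rw [Matrix.of_apply, Matrix.of_apply, smul_mul_smul_comm, ← pow_add, map_smul, smul_eq_mul]
  ring

theorem BA_det_monic (N : ℂ[X] →ₗ[ℂ] ℂ) (m : ℕ) (P : ℕ → ℂ[X])
    (hP : ∀ i < m, (P i).Monic ∧ (P i).natDegree = i) :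
    (Matrix.of fun i j : Fin m => N (P i * P j)).det =
      (Matrix.of fun i j : Fin m => N (X ^ (i.1 + j.1))).det := by
  have h1 := BA_gram N m P (fun i hi => by rw [(hP i hi).2]; exact hi)
  have h2 : (Matrix.of fun (a : Fin m) (k : Fin m) => (P a).coeff (k : ℕ)).det = 1 := by
    rw [Matrix.det_of_isLowerTriangular]
    · apply Finset.prod_eq_one
      intro i _
      rw [Matrix.of_apply]
      have h3 := (hP i i.2).1
      rw [Polynomial.Monic, Polynomial.leadingCoeff, (hP i i.2).2] at h3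
      exact h3
    · intro i j hij
      rw [Matrix.of_apply]
      apply Polynomial.coeff_eq_zero_of_natDegree_lt
      rw [(hP i i.2).2]
      exact hij
  rw [h1, Matrix.det_mul, Matrix.det_mul, Matrix.det_transpose, h2, one_mul, mul_one]

lemma BA_det_scale (m : ℕ) (A : Matrix (Fin m) (Fin m) ℂ) (c : ℕ → ℂ) (hc : ∀ i, ‖c i‖ = 1) :
    ‖(Matrix.of fun i j : Fin m => c i * c j * A i j).det‖ = ‖A.det‖ := by
  have h : (Matrix.of fun i j : Fin m => c i * c j * A i j) =
      Matrix.diagonal (fun i : Fin m => c i) * A * Matrix.diagonal (fun i : Fin m => c i) := by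
    ext i j
    rw [Matrix.mul_diagonal, Matrix.diagonal_mul, Matrix.of_apply]
    ring
  rw [h, Matrix.det_mul, Matrix.det_mul, Matrix.det_diagonal, norm_mul, norm_mul, norm_prod]
  have : ∏ i : Fin m, ‖c i‖ = 1 := Finset.prod_eq_one fun i _ => hc i
  rw [this, one_mul, mul_one]

lemma BA_prod_sq (m : ℕ) (f : Fin m → Fin m → ℝ) (V : ℕ → ℝ) (_hf : ∀ i j, 0 ≤ f i j)
    (hV : ∀ i, 0 ≤ V i) (h : ∀ i j : Fin m, f i j ^ 2 ≤ V i * V j) (σ : Equiv.Perm (Fin m)) :
    ∏ i, f (σ i) i ≤ ∏ i ∈ Finset.range m, V i := by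
  have h1 : (∏ i, f (σ i) i) ^ 2 ≤ (∏ i ∈ Finset.range m, V i) ^ 2 := by
    rw [← Finset.prod_pow]
    calc ∏ i, f (σ i) i ^ 2 ≤ ∏ i : Fin m, V (σ i) * V i :=
          Finset.prod_le_prod (fun i _ => sq_nonneg _) fun i _ => h (σ i) i
      _ = (∏ i : Fin m, V (σ i)) * ∏ i : Fin m, V i := Finset.prod_mul_distrib
      _ = (∏ i : Fin m, V i) * ∏ i : Fin m, V i := by
          rw [Equiv.prod_comp σ (fun i : Fin m => V i)]
      _ = (∏ i ∈ Finset.range m, V i) ^ 2 := by
          rw [Fin.prod_univ_eq_prod_range V m]; ring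
  exact le_of_sq_le_sq h1 (Finset.prod_nonneg fun i _ => hV i)

lemma BA_abs_det (m : ℕ) (M : Matrix (Fin m) (Fin m) ℂ) (A : ℕ → ℝ) (hA : ∀ i, 0 ≤ A i)
    (h : ∀ i j : Fin m, ‖M i j‖ ^ 2 ≤ A i * A j) :
    ‖M.det‖ ≤ (m.factorial : ℝ) * ∏ i ∈ Finset.range m, A i := by
  rw [Matrix.det_apply]
  refine (norm_sum_le _ _).trans ?_
  have hs : ∀ σ : Equiv.Perm (Fin m), ‖Equiv.Perm.sign σ • ∏ i, M (σ i) i‖ ≤
      ∏ i ∈ Finset.range m, A i := by
    intro σ
    have h1 : ‖Equiv.Perm.sign σ • ∏ i, M (σ i) i‖ = ∏ i, ‖M (σ i) i‖ := by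
      rcases Int.units_eq_one_or (Equiv.Perm.sign σ) with hσ | hσ
      · rw [hσ, one_smul, norm_prod]
      · rw [hσ, Units.neg_smul, one_smul, norm_neg, norm_prod]
    rw [h1]
    exact BA_prod_sq m (fun i j => ‖M i j‖) A (fun i j => norm_nonneg _) hA h σ
  refine (Finset.sum_le_sum fun σ _ => hs σ).trans ?_
  rw [Finset.sum_const, Finset.card_univ, Fintype.card_perm, Fintype.card_fin, nsmul_eq_mul]

/-! ### integrability -/

lemma zl_cont : Continuous zl := by
  unfold zl; fun_prop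

lemma zl_norm_le (y : ℝ) : ‖zl y‖ ≤ 1 + |y| := by
  unfold zl
  refine (norm_add_le _ _).trans ?_
  rw [norm_mul, Complex.norm_I, mul_one, Complex.norm_real, Real.norm_eq_abs]
  norm_num

/-- polynomial bound -/
lemma BA_poly (f : ℂ[X]) : ∃ C : ℝ, 0 ≤ C ∧ ∀ (y : ℝ) (z : ℂ), ‖z‖ ≤ 1 + |y| →
    ‖f.eval z‖ ≤ C * (1 + |y|) ^ f.natDegree := by
  refine ⟨∑ k ∈ Finset.range (f.natDegree + 1), ‖f.coeff k‖,
    Finset.sum_nonneg fun k _ => norm_nonneg _, ?_⟩
  intro y z hz
  rw [eval_eq_sum_range, Finset.sum_mul]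
  refine (norm_sum_le _ _).trans (Finset.sum_le_sum fun k hk => ?_)
  rw [norm_mul, norm_pow]
  apply mul_le_mul_of_nonneg_left _ (norm_nonneg _)
  rw [Finset.mem_range] at hk
  calc ‖z‖ ^ k ≤ (1 + |y|) ^ k := pow_le_pow_left₀ (norm_nonneg _) hz k
    _ ≤ (1 + |y|) ^ f.natDegree :=
        pow_le_pow_right₀ (by linarith [abs_nonneg y]) (by omega)

lemma BA_cosh (n : ℕ) : ∃ c : ℝ, 0 < c ∧ ∀ y : ℝ, c * (1 + |y|) ^ n ≤ Real.cosh (Real.pi * y) := by
  refine ⟨1 / (2 * Real.exp 1 * n.factorial), by positivity, fun y => ?_⟩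
  have h1 := Real.pow_div_factorial_le_exp (1 + |y|) (by positivity) n
  have h2 : Real.exp |Real.pi * y| / 2 ≤ Real.cosh (Real.pi * y) := by
    rw [← Real.cosh_abs, Real.cosh_eq]
    have := Real.exp_pos (-|Real.pi * y|)
    linarith
  have h3 : Real.exp |y| ≤ Real.exp |Real.pi * y| := by
    apply Real.exp_le_exp.mpr
    rw [abs_mul, abs_of_pos Real.pi_pos]
    have := Real.pi_gt_three
    nlinarith [abs_nonneg y]
  have h4 : Real.exp (1 + |y|) = Real.exp 1 * Real.exp |y| := Real.exp_add _ _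
  have hf : (0:ℝ) < n.factorial := by exact_mod_cast n.factorial_pos
  have he := Real.exp_pos 1
  have h5 : (1 + |y|) ^ n ≤ n.factorial * (Real.exp 1 * Real.exp |y|) := by
    rw [div_le_iff₀ hf] at h1
    rw [← h4]; linarith
  calc 1 / (2 * Real.exp 1 * n.factorial) * (1 + |y|) ^ n
      ≤ 1 / (2 * Real.exp 1 * n.factorial) * (n.factorial * (Real.exp 1 * Real.exp |y|)) := by
        apply mul_le_mul_of_nonneg_left h5 (by positivity)
    _ = Real.exp |y| / 2 := by field_simp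
    _ ≤ Real.exp |Real.pi * y| / 2 := by linarith
    _ ≤ _ := h2

/-- functions of polynomial growth divided by `cosh (π y)` are integrable -/
lemma BA_integrable (f : ℝ → ℝ) (hf : AEStronglyMeasurable f) (C : ℝ) (k : ℕ)
    (hb : ∀ y, |f y| ≤ C * (1 + |y|) ^ k / Real.cosh (Real.pi * y)) : Integrable f := by
  obtain ⟨c, hc, hcosh⟩ := BA_cosh (k + 2)
  have hC : 0 ≤ C := by
    have h := (abs_nonneg _).trans (hb 0)
    rw [abs_zero, add_zero, one_pow, mul_one, mul_zero, Real.cosh_zero, div_one] at h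
    exact h
  refine (integrable_inv_one_add_sq.const_mul (C / c)).mono' hf ?_
  refine Filter.Eventually.of_forall fun y => ?_
  rw [Real.norm_eq_abs]
  refine (hb y).trans ?_
  have h1 : 0 < 1 + |y| := by positivity
  have h2 : 0 < Real.cosh (Real.pi * y) := Real.cosh_pos _
  have h3 : (1 + y ^ 2) ≤ (1 + |y|) ^ 2 := by
    nlinarith [abs_nonneg y, sq_abs y]
  have h4 : c * ((1 + |y|) ^ k * (1 + y ^ 2)) ≤ Real.cosh (Real.pi * y) := by
    refine le_trans ?_ (hcosh y)
    apply mul_le_mul_of_nonneg_left _ hc.le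
    rw [pow_add]
    exact mul_le_mul_of_nonneg_left h3 (by positivity)
  rw [div_le_iff₀ h2]
  have h5 : C * (1 + |y|) ^ k = C / c * (1 + y ^ 2)⁻¹ * (c * ((1 + |y|) ^ k * (1 + y ^ 2))) := by
    have : (1 + y ^ 2) ≠ 0 := by positivity
    field_simp
  rw [h5]
  apply mul_le_mul_of_nonneg_left h4
  positivity

/-! ### the weight -/

lemma Pn_lower (a b : ℕ) (y : ℝ) :
    (1 / 2 : ℝ) ^ (Finset.Icc a b).card ≤ ‖aeval (zl y) (Pn a b)‖ := by
  unfold Pn
  rw [map_prod, norm_prod, ← Finset.prod_const]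
  apply Finset.prod_le_prod (fun _ _ => by norm_num)
  intro k _
  have h : aeval (zl y) (X + C (k : ℚ)) = zl y + k := by
    rw [map_add, aeval_X, aeval_C]; simp
  rw [h]
  have h2 : (zl y + k).re = 1 / 2 + k := by
    unfold zl; simp
  calc (1 / 2 : ℝ) ≤ 1 / 2 + k := by
        have : (0:ℝ) ≤ k := Nat.cast_nonneg k
        linarith
    _ = |(zl y + k).re| := by rw [h2, abs_of_nonneg (by positivity)]
    _ ≤ _ := Complex.abs_re_le_norm _

lemma aeval_eval (z : ℂ) (f : ℚ[X]) : aeval z f = (f.map (algebraMap ℚ ℂ)).eval z := by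
  rw [eval_map_algebraMap]

lemma cont_aeval (f : ℚ[X]) : Continuous fun y : ℝ => aeval (zl y) f :=
  (Polynomial.continuous_aeval f).comp zl_cont

lemma Pn_ne (a b : ℕ) (y : ℝ) : aeval (zl y) (Pn a b) ≠ 0 := by
  intro h
  have := Pn_lower a b y
  rw [h, norm_zero] at this
  have h2 : (0:ℝ) < (1 / 2 : ℝ) ^ (Finset.Icc a b).card := by positivity
  linarith

lemma ww_cont (a b : ℕ) : Continuous (ww a b) := by
  unfold ww
  apply Continuous.div
  · apply Continuous.div
    · exact (cont_aeval _).norm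
    · exact (cont_aeval _).norm
    · intro y; rw [norm_ne_zero_iff]; exact Pn_ne a b y
  · exact Real.continuous_cosh.comp (continuous_const.mul continuous_id)
  · intro y; exact (Real.cosh_pos _).ne'

lemma ww_nonneg (a b : ℕ) (y : ℝ) : 0 ≤ ww a b y := by
  unfold ww
  have := Real.cosh_pos (Real.pi * y)
  positivity

lemma ww_bound (a b : ℕ) : ∃ (C : ℝ) (k : ℕ), 0 ≤ C ∧ ∀ y,
    ww a b y ≤ C * (1 + |y|) ^ k / Real.cosh (Real.pi * y) := by
  obtain ⟨C, hC, hb⟩ := BA_poly ((An a).map (algebraMap ℚ ℂ))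
  refine ⟨C * 2 ^ (Finset.Icc a b).card, ((An a).map (algebraMap ℚ ℂ)).natDegree, by positivity,
    fun y => ?_⟩
  unfold ww
  have hcosh := Real.cosh_pos (Real.pi * y)
  apply div_le_div_of_nonneg_right _ hcosh.le
  have h1 := hb y (zl y) (zl_norm_le y)
  rw [← aeval_eval] at h1
  have h2 := Pn_lower a b y
  have h3 : (0:ℝ) < (1 / 2 : ℝ) ^ (Finset.Icc a b).card := by positivity
  rw [div_le_iff₀ (lt_of_lt_of_le h3 h2)]
  have h4 : 1 ≤ 2 ^ (Finset.Icc a b).card * ‖aeval (zl y) (Pn a b)‖ := by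
    calc (1:ℝ) = 2 ^ (Finset.Icc a b).card * (1 / 2 : ℝ) ^ (Finset.Icc a b).card := by
          rw [← mul_pow]; norm_num
      _ ≤ _ := mul_le_mul_of_nonneg_left h2 (by positivity)
  have h5 : 0 ≤ C * (1 + |y|) ^ ((An a).map (algebraMap ℚ ℂ)).natDegree := by positivity
  calc ‖aeval (zl y) (An a)‖ ≤ C * (1 + |y|) ^ ((An a).map (algebraMap ℚ ℂ)).natDegree * 1 := by
        rw [mul_one]; exact h1
    _ ≤ C * (1 + |y|) ^ ((An a).map (algebraMap ℚ ℂ)).natDegree *
        (2 ^ (Finset.Icc a b).card * ‖aeval (zl y) (Pn a b)‖) := mul_le_mul_of_nonneg_left h4 h5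
    _ = _ := by ring

lemma BA_ker (α β : ℚ) (y : ℝ) :
    ‖ker α β y‖ ≤ (2 * |(α : ℝ)| + 2 * |(β : ℝ)|) / Real.cosh (Real.pi * y) := by
  unfold ker
  have hc := Real.cosh_pos (Real.pi * y)
  refine (norm_add_le _ _).trans ?_
  have h1 : ‖(α : ℂ) / (2 * Real.cosh (Real.pi * y))‖ ≤ 2 * |(α : ℝ)| / Real.cosh (Real.pi * y) := by
    rw [norm_div, norm_mul, Complex.norm_real, Real.norm_eq_abs, abs_of_pos hc, Complex.norm_ratCast,
      Complex.norm_ofNat, div_le_div_iff₀ (by positivity) hc]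
    have := abs_nonneg (α : ℝ)
    nlinarith
  have hs : |Real.sinh (Real.pi * y)| ≤ Real.cosh (Real.pi * y) := by
    rw [abs_le]
    constructor
    · have := Real.exp_pos (Real.pi * y)
      rw [Real.cosh_eq, Real.sinh_eq]; linarith
    · exact (Real.sinh_lt_cosh _).le
  have h2 : ‖(β : ℂ) * (Complex.I * Real.pi / 2) *
      (Real.sinh (Real.pi * y) / Real.cosh (Real.pi * y) ^ 2)‖
      ≤ 2 * |(β : ℝ)| / Real.cosh (Real.pi * y) := by
    rw [norm_mul, norm_mul, norm_div, norm_div, norm_mul, norm_pow, Complex.norm_I, one_mul,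
      Complex.norm_real, Complex.norm_real, Complex.norm_real, Real.norm_eq_abs, Real.norm_eq_abs,
      Real.norm_eq_abs, abs_of_pos hc, abs_of_pos Real.pi_pos, Complex.norm_ratCast,
      Complex.norm_ofNat]
    have h3 : |Real.sinh (Real.pi * y)| / Real.cosh (Real.pi * y) ^ 2
        ≤ 1 / Real.cosh (Real.pi * y) := by
      rw [div_le_div_iff₀ (by positivity) hc, sq, one_mul]
      exact mul_le_mul_of_nonneg_right hs hc.le
    have h4 : Real.pi / 2 ≤ 2 := by linarith [Real.pi_le_four]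
    calc |(β : ℝ)| * (Real.pi / 2) * (|Real.sinh (Real.pi * y)| / Real.cosh (Real.pi * y) ^ 2)
        ≤ |(β : ℝ)| * 2 * (1 / Real.cosh (Real.pi * y)) := by
          apply mul_le_mul _ h3 (by positivity) (by positivity)
          exact mul_le_mul_of_nonneg_left h4 (abs_nonneg _)
      _ = _ := by ring
  calc _ ≤ 2 * |(α : ℝ)| / Real.cosh (Real.pi * y) + 2 * |(β : ℝ)| / Real.cosh (Real.pi * y) :=
        add_le_add h1 h2
    _ = _ := by ring

lemma BA_Gw (a b : ℕ) (α β : ℚ) (y : ℝ) :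
    ‖Gw a b α β y‖ ≤ (2 * |(α : ℝ)| + 2 * |(β : ℝ)|) * ww a b y := by
  unfold Gw ww
  rw [norm_mul, norm_div]
  have h := BA_ker α β y
  calc ‖aeval (zl y) (An a)‖ / ‖aeval (zl y) (Pn a b)‖ * ‖ker α β y‖
      ≤ ‖aeval (zl y) (An a)‖ / ‖aeval (zl y) (Pn a b)‖ *
        ((2 * |(α : ℝ)| + 2 * |(β : ℝ)|) / Real.cosh (Real.pi * y)) :=
        mul_le_mul_of_nonneg_left h (by positivity)
    _ = _ := by ring

lemma Gw_meas (a b : ℕ) (α β : ℚ) : Measurable (Gw a b α β) := by
  unfold Gw ker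
  apply Measurable.mul
  · exact (cont_aeval _).measurable.div (cont_aeval _).measurable
  · apply Measurable.add
    · apply Measurable.div measurable_const
      apply Measurable.mul measurable_const
      exact (Complex.continuous_ofReal.comp (Real.continuous_cosh.comp
        (continuous_const.mul continuous_id))).measurable
    · apply Measurable.mul measurable_const
      apply Measurable.div
      · exact (Complex.continuous_ofReal.comp (Real.continuous_sinh.comp
          (continuous_const.mul continuous_id))).measurable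
      · apply Measurable.pow_const
        exact (Complex.continuous_ofReal.comp (Real.continuous_cosh.comp
          (continuous_const.mul continuous_id))).measurable

/-- polynomial times weight is integrable (real) -/
lemma BA_int_real (a b : ℕ) (f : ℝ[X]) : Integrable (fun y : ℝ => f.eval y * ww a b y) := by
  obtain ⟨C, k, hC, hw⟩ := ww_bound a b
  obtain ⟨C', hC', hf⟩ := BA_poly (f.map (algebraMap ℝ ℂ))
  apply BA_integrable _ _ (C' * C) ((f.map (algebraMap ℝ ℂ)).natDegree + k)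
  · intro y
    have h1 := hf y (y : ℂ) (by
      rw [Complex.norm_real, Real.norm_eq_abs]; linarith)
    have h2 : ‖(f.map (algebraMap ℝ ℂ)).eval (y : ℂ)‖ = |f.eval y| := by
      have : (f.map (algebraMap ℝ ℂ)).eval (y : ℂ) = ((f.eval y : ℝ) : ℂ) := by
        rw [eval_map_algebraMap]
        exact Polynomial.aeval_algebraMap_apply_eq_algebraMap_eval y f
      rw [this, Complex.norm_real, Real.norm_eq_abs]
    rw [h2] at h1
    rw [abs_mul, abs_of_nonneg (ww_nonneg a b y), pow_add]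
    calc |f.eval y| * ww a b y
        ≤ (C' * (1 + |y|) ^ (f.map (algebraMap ℝ ℂ)).natDegree) *
          (C * (1 + |y|) ^ k / Real.cosh (Real.pi * y)) :=
          mul_le_mul h1 (hw y) (ww_nonneg a b y) (by positivity)
      _ = _ := by ring
  · exact (f.continuous.mul (ww_cont a b)).aestronglyMeasurable

/-- polynomial (in `y`, complex) times `Gw` is integrable -/
lemma BA_int_cx (a b : ℕ) (α β : ℚ) (f : ℂ[X]) :
    Integrable (fun y : ℝ => f.eval (y : ℂ) * Gw a b α β y) := by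
  obtain ⟨C, k, hC, hw⟩ := ww_bound a b
  obtain ⟨C', hC', hf⟩ := BA_poly f
  have hm : AEStronglyMeasurable (fun y : ℝ => f.eval (y : ℂ) * Gw a b α β y) := by
    apply Measurable.aestronglyMeasurable
    apply Measurable.mul _ (Gw_meas a b α β)
    exact (f.continuous.comp Complex.continuous_ofReal).measurable
  have h0 : Integrable (fun y : ℝ => ‖f.eval (y : ℂ) * Gw a b α β y‖) := by
    apply BA_integrable _ hm.norm (C' * ((2 * |(α : ℝ)| + 2 * |(β : ℝ)|) * C)) (f.natDegree + k)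
    intro y
    rw [abs_of_nonneg (norm_nonneg _), norm_mul, pow_add]
    have h1 := hf y (y : ℂ) (by rw [Complex.norm_real, Real.norm_eq_abs]; linarith)
    have h2 := BA_Gw a b α β y
    have h3 : ‖Gw a b α β y‖ ≤ (2 * |(α : ℝ)| + 2 * |(β : ℝ)|) *
        (C * (1 + |y|) ^ k / Real.cosh (Real.pi * y)) :=
      h2.trans (mul_le_mul_of_nonneg_left (hw y) (by positivity))
    calc ‖f.eval (y : ℂ)‖ * ‖Gw a b α β y‖
        ≤ (C' * (1 + |y|) ^ f.natDegree) * ((2 * |(α : ℝ)| + 2 * |(β : ℝ)|) *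
        (C * (1 + |y|) ^ k / Real.cosh (Real.pi * y))) :=
          mul_le_mul h1 h3 (norm_nonneg _) (by positivity)
      _ = _ := by ring
  exact (integrable_norm_iff hm).mp h0

/-- the functional in the variable `y` -/
def NF (a b : ℕ) (α β : ℚ) : ℂ[X] →ₗ[ℂ] ℂ where
  toFun f := ∫ y : ℝ, f.eval (y : ℂ) * Gw a b α β y
  map_add' f g := by
    rw [← integral_add (BA_int_cx a b α β f) (BA_int_cx a b α β g)]
    congr 1
    ext y
    rw [eval_add, add_mul]
  map_smul' c f := by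
    rw [RingHom.id_apply, smul_eq_mul, ← integral_const_mul]
    congr 1
    ext y
    rw [eval_smul, smul_eq_mul, mul_assoc]

lemma NF_apply (a b : ℕ) (α β : ℚ) (f : ℂ[X]) :
    NF a b α β f = ∫ y : ℝ, f.eval (y : ℂ) * Gw a b α β y := rfl

/-- Cauchy–Schwarz -/
lemma BA_CS (a b : ℕ) (f g : ℝ[X]) :
    (∫ y : ℝ, |f.eval y| * |g.eval y| * ww a b y) ^ 2 ≤
      (∫ y : ℝ, f.eval y ^ 2 * ww a b y) * ∫ y : ℝ, g.eval y ^ 2 * ww a b y := by
  have hff : Integrable (fun y : ℝ => f.eval y ^ 2 * ww a b y) := by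
    have := BA_int_real a b (f ^ 2)
    simpa only [eval_pow] using this
  have hgg : Integrable (fun y : ℝ => g.eval y ^ 2 * ww a b y) := by
    have := BA_int_real a b (g ^ 2)
    simpa only [eval_pow] using this
  have hfg : Integrable (fun y : ℝ => |f.eval y| * |g.eval y| * ww a b y) := by
    have := (BA_int_real a b (f * g)).abs
    refine this.congr (Filter.Eventually.of_forall fun y => ?_)
    simp only [eval_mul, abs_mul, abs_of_nonneg (ww_nonneg a b y)]
  have key : ∀ t : ℝ, 0 ≤ (∫ y : ℝ, f.eval y ^ 2 * ww a b y) * (t * t)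
      + (-2 * ∫ y : ℝ, |f.eval y| * |g.eval y| * ww a b y) * t
      + ∫ y : ℝ, g.eval y ^ 2 * ww a b y := by
    intro t
    have h : 0 ≤ ∫ y : ℝ, (t * |f.eval y| - |g.eval y|) ^ 2 * ww a b y :=
      integral_nonneg fun y => mul_nonneg (sq_nonneg _) (ww_nonneg a b y)
    have h2 : ∫ y : ℝ, (t * |f.eval y| - |g.eval y|) ^ 2 * ww a b y =
        ∫ y : ℝ, ((t * t) * (f.eval y ^ 2 * ww a b y) +
          (-2 * t) * (|f.eval y| * |g.eval y| * ww a b y) + g.eval y ^ 2 * ww a b y) := by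
      congr 1
      ext y
      rw [← sq_abs (f.eval y), ← sq_abs (g.eval y)]
      ring
    have hs1 : Integrable (fun y : ℝ => (t * t) * (f.eval y ^ 2 * ww a b y)) := hff.const_mul _
    have hs2 : Integrable (fun y : ℝ => (-2 * t) * (|f.eval y| * |g.eval y| * ww a b y)) :=
      hfg.const_mul _
    have hs : Integrable (fun y : ℝ => (t * t) * (f.eval y ^ 2 * ww a b y) +
        (-2 * t) * (|f.eval y| * |g.eval y| * ww a b y)) := hs1.add hs2
    rw [h2, integral_add hs hgg, integral_add hs1 hs2, integral_const_mul, integral_const_mul] at h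
    linarith
  have hd := discrim_le_zero key
  unfold discrim at hd
  nlinarith

/-- the bound for one entry -/
lemma BA_entry (a b : ℕ) (α β : ℚ) (f g : ℝ[X]) :
    ‖NF a b α β (f.map (algebraMap ℝ ℂ) * g.map (algebraMap ℝ ℂ))‖ ^ 2 ≤
      ((2 * |(α : ℝ)| + 2 * |(β : ℝ)|) * ∫ y : ℝ, f.eval y ^ 2 * ww a b y) *
      ((2 * |(α : ℝ)| + 2 * |(β : ℝ)|) * ∫ y : ℝ, g.eval y ^ 2 * ww a b y) := by
  set c := (2 * |(α : ℝ)| + 2 * |(β : ℝ)|) with hc
  have hc0 : 0 ≤ c := by positivity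
  have hfg : Integrable (fun y : ℝ => |f.eval y| * |g.eval y| * ww a b y) := by
    have := (BA_int_real a b (f * g)).abs
    refine this.congr (Filter.Eventually.of_forall fun y => ?_)
    simp only [eval_mul, abs_mul, abs_of_nonneg (ww_nonneg a b y)]
  have h1 : ‖NF a b α β (f.map (algebraMap ℝ ℂ) * g.map (algebraMap ℝ ℂ))‖ ≤
      c * ∫ y : ℝ, |f.eval y| * |g.eval y| * ww a b y := by
    rw [NF_apply, ← integral_const_mul]
    refine (norm_integral_le_integral_norm _).trans ?_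
    apply integral_mono_of_nonneg (Filter.Eventually.of_forall fun y => norm_nonneg _)
      (hfg.const_mul c)
    refine Filter.Eventually.of_forall fun y => ?_
    have e1 : ∀ h : ℝ[X], (h.map (algebraMap ℝ ℂ)).eval (y : ℂ) = ((h.eval y : ℝ) : ℂ) := by
      intro h
      rw [eval_map_algebraMap]
      exact Polynomial.aeval_algebraMap_apply_eq_algebraMap_eval y h
    have h2 := BA_Gw a b α β y
    simp only [eval_mul, norm_mul]
    rw [e1, e1, Complex.norm_real, Complex.norm_real, Real.norm_eq_abs, Real.norm_eq_abs]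
    calc |f.eval y| * |g.eval y| * ‖Gw a b α β y‖ ≤ |f.eval y| * |g.eval y| * (c * ww a b y) :=
          mul_le_mul_of_nonneg_left h2 (by positivity)
      _ = _ := by ring
  have h3 : 0 ≤ ∫ y : ℝ, |f.eval y| * |g.eval y| * ww a b y :=
    integral_nonneg fun y => mul_nonneg (by positivity) (ww_nonneg a b y)
  calc _ ≤ (c * ∫ y : ℝ, |f.eval y| * |g.eval y| * ww a b y) ^ 2 :=
        pow_le_pow_left₀ (norm_nonneg _) h1 2
    _ = c ^ 2 * (∫ y : ℝ, |f.eval y| * |g.eval y| * ww a b y) ^ 2 := by ring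
    _ ≤ c ^ 2 * ((∫ y : ℝ, f.eval y ^ 2 * ww a b y) * ∫ y : ℝ, g.eval y ^ 2 * ww a b y) :=
        mul_le_mul_of_nonneg_left (BA_CS a b f g) (by positivity)
    _ = _ := by ring

/-- **B_abs** (with an extra factor `m!`) -/
theorem B_abs (a b m : ℕ) (α β γ : ℚ)
    (hA : ∀ f : ℚ[X], ((L a b α β γ f : ℚ) : ℂ) = ∫ y : ℝ, aeval (zl y) f * Gw a b α β y)
    (q : ℕ → ℝ[X]) (hq : ∀ i < m, (q i).Monic ∧ (q i).natDegree = i) :
    |((DD a b m α β γ : ℚ) : ℝ)| ≤ (m.factorial : ℝ) * ((2 * |(α : ℝ)| + 2 * |(β : ℝ)|) ^ m *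
      ∏ i ∈ Finset.range m, ∫ y : ℝ, (q i).eval y ^ 2 * ww a b y) := by
  set N := NF a b α β with hN
  -- the determinant in terms of `N`
  have h1 : ((DD a b m α β γ : ℚ) : ℂ) = (Matrix.of fun i j : Fin m =>
      (Complex.I ^ (i : ℕ)) * (Complex.I ^ (j : ℕ)) *
        (Matrix.of fun i j : Fin m => N ((X - C (Complex.I / 2)) ^ (i : ℕ) *
          (X - C (Complex.I / 2)) ^ (j : ℕ))) i j).det := by
    unfold DD
    have e0 : ((Matrix.of fun i j : Fin m => L a b α β γ (X ^ ((i : ℕ) + (j : ℕ)))).det : ℂ) =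
      ((algebraMap ℚ ℂ).mapMatrix (Matrix.of fun i j : Fin m =>
        L a b α β γ (X ^ ((i : ℕ) + (j : ℕ))))).det := by
      rw [← RingHom.map_det]; rfl
    rw [e0]
    congr 1
    ext i j
    simp only [RingHom.mapMatrix_apply, Matrix.map_apply, Matrix.of_apply]
    have e1 : (algebraMap ℚ ℂ) (L a b α β γ (X ^ ((i : ℕ) + (j : ℕ)))) =
      ((L a b α β γ (X ^ ((i : ℕ) + (j : ℕ))) : ℚ) : ℂ) := rfl
    rw [e1, hA, hN, NF_apply, ← integral_const_mul]
    congr 1
    ext y
    rw [map_pow, aeval_X, ← pow_add, ← pow_add, eval_pow, eval_sub, eval_X, eval_C, ← mul_assoc,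
      ← mul_pow]
    congr 2
    unfold zl
    have hI := Complex.I_mul_I
    linear_combination (1/2 : ℂ) * hI
  have h2 : ‖((DD a b m α β γ : ℚ) : ℂ)‖ = ‖(Matrix.of fun i j : Fin m =>
      N ((q i).map (algebraMap ℝ ℂ) * (q j).map (algebraMap ℝ ℂ))).det‖ := by
    rw [h1, BA_det_scale m _ (fun i => Complex.I ^ i) (fun i => by
      rw [norm_pow, Complex.norm_I, one_pow])]
    rw [BA_det_monic N m (fun i => (X - C (Complex.I / 2)) ^ i) (fun i _ =>
      ⟨(monic_X_sub_C _).pow i, by rw [natDegree_pow, natDegree_X_sub_C, mul_one]⟩)]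
    rw [BA_det_monic N m (fun i => (q i).map (algebraMap ℝ ℂ)) (fun i hi =>
      ⟨(hq i hi).1.map _, by rw [natDegree_map, (hq i hi).2]⟩)]
  have h3 : ‖((DD a b m α β γ : ℚ) : ℂ)‖ = |((DD a b m α β γ : ℚ) : ℝ)| := by
    rw [Complex.norm_ratCast]
  rw [← h3, h2]
  have h4 := BA_abs_det m (Matrix.of fun i j : Fin m =>
      N ((q i).map (algebraMap ℝ ℂ) * (q j).map (algebraMap ℝ ℂ)))
    (fun i => (2 * |(α : ℝ)| + 2 * |(β : ℝ)|) * ∫ y : ℝ, (q i).eval y ^ 2 * ww a b y)
    (fun i => mul_nonneg (by positivity)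
      (integral_nonneg fun y => mul_nonneg (sq_nonneg _) (ww_nonneg a b y)))
    (fun i j => by
      rw [Matrix.of_apply]
      exact BA_entry a b α β (q i) (q j))
  refine h4.trans (le_of_eq ?_)
  rw [Finset.prod_mul_distrib, Finset.prod_const, Finset.card_range]

end

end Pool.Agent.LP
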